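import Pool.Agent.helper82.SW.SpecW

/-! # sp:WCL : closed and open test sets of compact sets -/

namespace Pool.Agent.helper82.SW

open MeasureTheory Filter Topology TopologicalSpace

theorem CL_sqrt : (0 : ℝ) < √3 := Real.sqrt_pos.mpr (by norm_num)

theorem CL_hitC (E : ℕ) (a b c d : ℤ) :
    IsClosed {K : Compacts SpectralPivotal.unitSquare | satCK E K (.hit a b c d)} := by
  have hC : IsClosed {z : SpectralPivotal.unitSquare | (a : ℝ) ≤ 2 * 2 ^ E * (z : ℂ).re ∧
      2 * 2 ^ E * (z : ℂ).re ≤ b ∧ c * √3 ≤ 2 * 2 ^ E * (z : ℂ).im ∧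
      2 * 2 ^ E * (z : ℂ).im ≤ d * √3} := by
    refine IsClosed.and ?_ (IsClosed.and ?_ (IsClosed.and ?_ ?_))
    · exact isClosed_le (by fun_prop) (by fun_prop)
    · exact isClosed_le (by fun_prop) (by fun_prop)
    · exact isClosed_le (by fun_prop) (by fun_prop)
    · exact isClosed_le (by fun_prop) (by fun_prop)
  exact Compacts.isClosed_inter_nonempty_of_isClosed hC

theorem CL_hitO (E : ℕ) (a b c d : ℤ) :
    IsOpen {K : Compacts SpectralPivotal.unitSquare | satOK E K (.hit a b c d)} := by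
  have hC : IsOpen {z : SpectralPivotal.unitSquare | ((a : ℝ) - 1) < 2 * 2 ^ E * (z : ℂ).re ∧
      2 * 2 ^ E * (z : ℂ).re < b + 1 ∧ (c - 1) * √3 < 2 * 2 ^ E * (z : ℂ).im ∧
      2 * 2 ^ E * (z : ℂ).im < (d + 1) * √3} := by
    refine IsOpen.and ?_ (IsOpen.and ?_ (IsOpen.and ?_ ?_))
    · exact isOpen_lt (by fun_prop) (by fun_prop)
    · exact isOpen_lt (by fun_prop) (by fun_prop)
    · exact isOpen_lt (by fun_prop) (by fun_prop)
    · exact isOpen_lt (by fun_prop) (by fun_prop)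
  exact Compacts.isOpen_inter_nonempty_of_isOpen hC

theorem CL_missC (E : ℕ) (a b c d : ℤ) :
    IsClosed {K : Compacts SpectralPivotal.unitSquare | satCK E K (.miss a b c d)} := by
  have hC : IsOpen {z : SpectralPivotal.unitSquare | (a : ℝ) < 2 * 2 ^ E * (z : ℂ).re ∧
      2 * 2 ^ E * (z : ℂ).re < b ∧ c * √3 < 2 * 2 ^ E * (z : ℂ).im ∧
      2 * 2 ^ E * (z : ℂ).im < d * √3} := by
    refine IsOpen.and ?_ (IsOpen.and ?_ (IsOpen.and ?_ ?_))
    · exact isOpen_lt (by fun_prop) (by fun_prop)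
    · exact isOpen_lt (by fun_prop) (by fun_prop)
    · exact isOpen_lt (by fun_prop) (by fun_prop)
    · exact isOpen_lt (by fun_prop) (by fun_prop)
  exact (Compacts.isOpen_inter_nonempty_of_isOpen hC).isClosed_compl

theorem CL_missO (E : ℕ) (a b c d : ℤ) :
    IsOpen {K : Compacts SpectralPivotal.unitSquare | satOK E K (.miss a b c d)} := by
  have hC : IsClosed {z : SpectralPivotal.unitSquare | ((a : ℝ) + 1) ≤ 2 * 2 ^ E * (z : ℂ).re ∧
      2 * 2 ^ E * (z : ℂ).re ≤ b - 1 ∧ (c + 1) * √3 ≤ 2 * 2 ^ E * (z : ℂ).im ∧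
      2 * 2 ^ E * (z : ℂ).im ≤ (d - 1) * √3} := by
    refine IsClosed.and ?_ (IsClosed.and ?_ (IsClosed.and ?_ ?_))
    · exact isClosed_le (by fun_prop) (by fun_prop)
    · exact isClosed_le (by fun_prop) (by fun_prop)
    · exact isClosed_le (by fun_prop) (by fun_prop)
    · exact isClosed_le (by fun_prop) (by fun_prop)
  exact (Compacts.isClosed_inter_nonempty_of_isClosed hC).isOpen_compl

theorem CL : CL_stmt := by
  intro E φ
  have h3 := CL_sqrt
  induction φ with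
  | hit a b c d =>
    refine ⟨CL_hitC E a b c d, CL_hitO E a b c d, ?_⟩
    rintro K ⟨z, hz, h1, h2, h4, h5⟩
    refine ⟨z, hz, by linarith, by linarith, by nlinarith, by nlinarith⟩
  | miss a b c d =>
    refine ⟨CL_missC E a b c d, CL_missO E a b c d, ?_⟩
    rintro K hK ⟨z, hz, h1, h2, h4, h5⟩
    exact hK ⟨z, hz, by linarith, by linarith, by nlinarith, by nlinarith⟩
  | and φ ψ ihφ ihψ =>
    refine ⟨IsClosed.and ihφ.1 ihψ.1, IsOpen.and ihφ.2.1 ihψ.2.1, ?_⟩
    rintro K ⟨h1, h2⟩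
    exact ⟨ihφ.2.2 K h1, ihψ.2.2 K h2⟩
  | or φ ψ ihφ ihψ =>
    refine ⟨IsClosed.union ihφ.1 ihψ.1, IsOpen.union ihφ.2.1 ihψ.2.1, ?_⟩
    rintro K (h1 | h2)
    · exact Or.inl (ihφ.2.2 K h1)
    · exact Or.inr (ihψ.2.2 K h2)
  | tt =>
    refine ⟨?_, ?_, fun K h => trivial⟩
    · exact isClosed_univ
    · exact isOpen_univ
  | ff =>
    refine ⟨?_, ?_, fun K h => h.elim⟩
    · exact isClosed_empty
    · exact isOpen_empty

end Pool.Agent.helper82.SW
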