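import Pool.Agent.helper82.SW.SpecW

/-! # sp:WPSB : law of the spectral sample -/

namespace Pool.Agent.helper82.SW

open MeasureTheory Filter Topology TopologicalSpace

theorem PSB (hFH : FH_stmt) (hAD : AD_stmt) : PSB_stmt := by
  classical
  intro i A
  obtain ⟨-, hsites, -, -, hVV, hinj⟩ := hAD
  have hfinj : Function.Injective (fun x : SpectralPivotal.sites (2 ^ i) => sh x) := by
    intro x y hxy
    exact Subtype.ext (hinj hxy)
  unfold TP.PS TP.PSF
  refine Finset.sum_bij
    (fun (S : Finset (SpectralPivotal.sites (2 ^ i))) _ =>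
      S.image fun x : SpectralPivotal.sites (2 ^ i) => sh x) ?_ ?_ ?_ ?_
  · intro S _
    rw [Finset.mem_powerset]
    intro w hw
    rw [Finset.mem_image] at hw
    obtain ⟨x, -, rfl⟩ := hw
    exact (hVV i _).2 ⟨x, (hsites _ _).1 x.2, rfl⟩
  · intro S _ T _ h
    exact Finset.image_injective hfinj h
  · intro T hT
    rw [Finset.mem_powerset] at hT
    refine ⟨T.preimage (fun x : SpectralPivotal.sites (2 ^ i) => sh x) hfinj.injOn,
      Finset.mem_univ _, ?_⟩
    rw [Finset.image_preimage, Finset.filter_true_of_mem]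
    intro w hw
    obtain ⟨v, hv, hvw⟩ := (hVV i w).1 (hT hw)
    exact ⟨⟨v, (hsites _ _).2 hv⟩, hvw⟩
  · intro S _
    rw [hFH, Finset.coe_image]

end Pool.Agent.helper82.SW
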